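import Pool.Agent.H93.CP.Targets

set_option autoImplicit false

open Set Filter Topology

namespace Pool.Agent.H93.CPT

open Pool.Agent.H93.CP

theorem pf_TOP (hTPS : T_TPS) (hSTM : T_STM) : T_TOP := by
  intro G X _ _ _ _ _ _ mX _ _ _ D hD
  obtain ⟨hS1, hS2, hS3⟩ := hSTM G X
  obtain ⟨t0, hb0, hp0⟩ := StandardBorelSpace.polish (α := X)
  set Q : Type := {t : TopologicalSpace X // @PolishSpace X t ∧ @BorelSpace X t mX} with hQ
  have step : ∀ t : Q, ∃ t' : Q, t'.1 ≤ t.1 ∧
      ∀ O ∈ @TopologicalSpace.countableBasis X t.1 (@PolishSpace.toSecondCountableTopology X t.1 t.2.1),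
        (∀ U ∈ TopologicalSpace.countableBasis G, IsOpen[t'.1] (Star O U)) ∧
        ∀ d ∈ D, IsOpen[t'.1] ((fun x => d • x) ⁻¹' O) := by
    rintro ⟨t, hp, hb⟩
    have hsc : @SecondCountableTopology X t := @PolishSpace.toSecondCountableTopology X t hp
    set Bt : Set (Set X) := @TopologicalSpace.countableBasis X t hsc with hBt
    have hBc : Bt.Countable := @TopologicalSpace.countable_countableBasis X t hsc
    have hBo : ∀ O ∈ Bt, MeasurableSet O := fun O hO =>
      @IsOpen.measurableSet X O t mX (@BorelSpace.opensMeasurable X t mX hb)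
        (@TopologicalSpace.isOpen_of_mem_countableBasis X t hsc O hO)
    set A : Set (Set X) := (⋃ O ∈ Bt, ⋃ U ∈ TopologicalSpace.countableBasis G, {Star O U}) ∪
      ⋃ O ∈ Bt, ⋃ d ∈ D, {(fun x => d • x) ⁻¹' O} with hA
    have hAc : A.Countable := by
      refine Set.Countable.union ?_ ?_
      · exact hBc.biUnion fun O _ => (TopologicalSpace.countable_countableBasis G).biUnion
          fun U _ => countable_singleton _
      · exact hBc.biUnion fun O _ => Set.Countable.biUnion (Set.to_countable _)
          fun d _ => countable_singleton _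
    have hAm : ∀ s ∈ A, MeasurableSet s := by
      rintro s (hs | hs)
      · simp only [mem_iUnion, mem_singleton_iff] at hs
        obtain ⟨O, hO, U, hU, rfl⟩ := hs
        exact hS1 O U (hBo O hO) (TopologicalSpace.isOpen_of_mem_countableBasis hU)
      · simp only [mem_iUnion, mem_singleton_iff] at hs
        obtain ⟨O, hO, d, hd, rfl⟩ := hs
        exact (measurable_const_smul d) (hBo O hO)
    obtain ⟨t', h1, h2, h3, h4⟩ := hTPS X t hp hb A hAc hAm
    refine ⟨⟨t', h2, h3⟩, h1, fun O hO => ⟨fun U hU => h4 _ (Or.inl ?_), fun d hd =>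
      h4 _ (Or.inr ?_)⟩⟩
    · simp only [mem_iUnion, mem_singleton_iff]
      exact ⟨O, hO, U, hU, rfl⟩
    · simp only [mem_iUnion, mem_singleton_iff]
      exact ⟨O, hO, d, hd, rfl⟩
  choose nx hnx1 hnx2 using step
  set sq : ℕ → Q := fun n => Nat.rec ⟨t0, hp0, hb0⟩ (fun _ t => nx t) n with hsq
  have hsucc : ∀ n, sq (n + 1) = nx (sq n) := fun n => rfl
  have hdec : ∀ n, (sq n).1 ≤ (sq 0).1 := by
    intro n
    induction n with
    | zero => exact le_refl _
    | succ n ih => exact (hnx1 (sq n)).trans ih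
  set t : TopologicalSpace X := ⨅ n, (sq n).1 with ht
  have hle : ∀ n, t ≤ (sq n).1 := fun n => iInf_le _ n
  have htp : @PolishSpace X t := PolishSpace.iInf ⟨0, hdec⟩ fun n => (sq n).2.1
  have htb : @BorelSpace X t mX := by
    have e1 : mX = @borel X t0 := @BorelSpace.measurable_eq X t0 mX hb0
    have e2 : @borel X t = @borel X t0 := MeasureTheory.borel_eq_borel_of_le htp hp0 (hle 0)
    exact @BorelSpace.mk X t mX (e1.trans e2.symm)
  set Bn : ℕ → Set (Set X) := fun n => @TopologicalSpace.countableBasis X (sq n).1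
    (@PolishSpace.toSecondCountableTopology X (sq n).1 (sq n).2.1) with hBn
  have hgen : t = TopologicalSpace.generateFrom (⋃ n, Bn n) := by
    rw [generateFrom_iUnion, ht]
    refine iInf_congr fun n => ?_
    exact @TopologicalSpace.IsTopologicalBasis.eq_generateFrom X (sq n).1 _
      (@TopologicalSpace.isBasis_countableBasis X (sq n).1
        (@PolishSpace.toSecondCountableTopology X (sq n).1 (sq n).2.1))
  have hopen : ∀ n (s : Set X), IsOpen[(sq n).1] s → IsOpen[t] s := fun n s hs => hle n s hs
  refine ⟨t, htp, htb, ?_, ?_⟩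
  · intro d hd
    have h0 : @Continuous X X t (TopologicalSpace.generateFrom (⋃ n, Bn n)) (fun x => d • x) := by
      let _ := t
      refine continuous_generateFrom_iff.2 fun O hO => ?_
      obtain ⟨n, hn⟩ := mem_iUnion.1 hO
      have h1 := (hnx2 (sq n) O hn).2 d hd
      rw [← hsucc] at h1
      exact hopen (n + 1) _ h1
    rw [← hgen] at h0
    exact h0
  · refine ⟨(fun f => ⋂₀ f) '' {f : Set (Set X) | f.Finite ∧ f ⊆ ⋃ n, Bn n},
      TopologicalSpace.countableBasis G,
      @TopologicalSpace.isTopologicalBasis_of_subbasis X t _ hgen, ?_,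
      TopologicalSpace.isBasis_countableBasis G, TopologicalSpace.countable_countableBasis G, ?_⟩
    · refine (Set.countable_ofPred_finite_subset ?_).image _
      exact countable_iUnion fun n => @TopologicalSpace.countable_countableBasis X (sq n).1
        (@PolishSpace.toSecondCountableTopology X (sq n).1 (sq n).2.1)
    · rintro _ ⟨f, ⟨hf, hfB⟩, rfl⟩ U hU
      change IsOpen[t] (Star (⋂₀ f) U)
      rw [hS2 f U hf.countable]
      refine @Set.Finite.isOpen_biInter X _ t f _ hf fun O hO => ?_
      obtain ⟨n, hn⟩ := mem_iUnion.1 (hfB hO)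
      have h1 := (hnx2 (sq n) O hn).1 U hU
      rw [← hsucc] at h1
      exact hopen (n + 1) _ h1

end Pool.Agent.H93.CPT
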