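import Pool.Agent.H93.CP.Targets

set_option autoImplicit false

open Set Filter Topology

namespace Pool.Agent.H93.CPT

open Pool.Agent.H93.CP

theorem pf_HCO : T_HCO := by
  intro Z K G _ _ _ _ _ F h1 h2 h3
  refine continuous_induced_rng.2 ?_
  refine Continuous.prodMk ?_ (Continuous.prodMk ?_ ?_)
  · exact (ContinuousMap.curry ⟨fun p : Z × K => (F p.1).h p.2, h1⟩).continuous
  · exact (ContinuousMap.curry ⟨fun p : Z × K => (F p.1).h.symm p.2, h2⟩).continuous
  · exact (ContinuousMap.curry ⟨fun p : Z × K => (F p.1).c p.2, h3⟩).continuous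

end Pool.Agent.H93.CPT
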