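import Pool.Agent.H93.CP.Targets

set_option autoImplicit false

open Set Filter Topology

namespace Pool.Agent.H93.CPT

open Pool.Agent.H93.CP

theorem polish_cmap (K Z : Type) [TopologicalSpace K] [CompactSpace K] [T2Space K]
    [SecondCountableTopology K] [TopologicalSpace Z] [PolishSpace Z] : PolishSpace C(K, Z) := by
  have : TopologicalSpace.MetrizableSpace K := inferInstance
  let _ := TopologicalSpace.upgradeIsCompletelyMetrizable Z
  infer_instance

theorem pf_HPO : T_HPO := by
  intro K G _ _ _ _ _ _ _ _
  have : PolishSpace K := by
    let _ := TopologicalSpace.metrizableSpaceMetric K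
    infer_instance
  have h1 : PolishSpace C(K, K) := polish_cmap K K
  have h2 : PolishSpace C(K, G) := polish_cmap K G
  have hcl : IsClosedEmbedding (fun a : HC K G =>
      ((⟨a.h, a.h.continuous⟩ : C(K, K)), (⟨a.h.symm, a.h.symm.continuous⟩ : C(K, K)), a.c)) := by
    refine ⟨⟨⟨rfl⟩, ?_⟩, ?_⟩
    · intro a b hab
      have e1 : (⟨a.h, a.h.continuous⟩ : C(K, K)) = ⟨b.h, b.h.continuous⟩ := congrArg Prod.fst hab
      have e2 : a.c = b.c := congrArg (fun p => p.2.2) hab
      refine HC.ext ?_ e2
      ext y
      exact congrArg (fun f : C(K, K) => f y) e1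
    · have hr : range (fun a : HC K G =>
          ((⟨a.h, a.h.continuous⟩ : C(K, K)), (⟨a.h.symm, a.h.symm.continuous⟩ : C(K, K)), a.c)) =
          {p : C(K, K) × C(K, K) × C(K, G) | p.1.comp p.2.1 = ContinuousMap.id K ∧
            p.2.1.comp p.1 = ContinuousMap.id K} := by
        ext p
        constructor
        · rintro ⟨a, rfl⟩
          constructor
          · ext y
            exact a.h.apply_symm_apply y
          · ext y
            exact a.h.symm_apply_apply y
        · rintro ⟨h3, h4⟩
          refine ⟨⟨⟨⟨p.1, p.2.1, fun y => ?_, fun y => ?_⟩, p.1.continuous, p.2.1.continuous⟩,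
            p.2.2⟩, rfl⟩
          · exact congrArg (fun f : C(K, K) => f y) h4
          · exact congrArg (fun f : C(K, K) => f y) h3
      rw [hr]
      refine (isClosed_eq ?_ continuous_const).inter (isClosed_eq ?_ continuous_const)
      · exact ContinuousMap.continuous_comp'.comp
          ((continuous_fst.comp continuous_snd).prodMk continuous_fst)
      · exact ContinuousMap.continuous_comp'.comp
          (continuous_fst.prodMk (continuous_fst.comp continuous_snd))
  exact hcl.polishSpace

end Pool.Agent.H93.CPT
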