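import Pool.Agent.H93.CP.Targets

set_option autoImplicit false

open Set Filter Topology

namespace Pool.Agent.H93.CPT

open Pool.Agent.H93.CP

theorem mkPath {G : Type} (S : Gr G) (P : List S.E → Prop) (h0 : P [])
    (h1 : ∀ u w, u <+: w → P w → P u) (h2 : ∀ w, P w → S.Leg S.root w)
    (h3 : ∀ u w, P u → P w → u <+: w ∨ w <+: u) : ∃ z : S.Path, ∀ w, S.Mem w z ↔ P w := by
  classical
  refine ⟨⟨fun w => decide (P w), ?_⟩, fun w => ?_⟩
  · refine ⟨decide_eq_true h0, fun u w huw hw => decide_eq_true (h1 u w huw (of_decide_eq_true hw)),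
      fun w hw => h2 w (of_decide_eq_true hw),
      fun u w hu hw => h3 u w (of_decide_eq_true hu) (of_decide_eq_true hw)⟩
  · exact decide_eq_true_iff

theorem pathExt {G : Type} (S : Gr G) (y z : S.Path) (h : ∀ w, S.Mem w y ↔ S.Mem w z) :
    y = z := by
  apply Subtype.ext
  funext w
  exact Bool.eq_iff_iff.2 (h w)

theorem levFin {G : Type} (S : Gr G) (h5 : ∀ a u w, S.Leg a (u ++ w) ↔ S.Leg a u ∧
    S.Leg (S.fin a u) w) (h6 : ∀ a u w, S.fin a (u ++ w) = S.fin (S.fin a u) w)
    (u t : List S.E) (h : S.Leg S.root (u ++ t)) :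
    S.lev (S.fin S.root u) ≤ S.lev (S.fin S.root (u ++ t)) := by
  induction t using List.reverseRecOn with
  | nil => simp
  | append_singleton t e ih =>
    rw [← List.append_assoc] at h ⊢
    have h1 := (h5 _ _ _).1 h
    refine (ih h1.1).trans ?_
    rw [h6 _ (u ++ t) [e]]
    have h2 : S.src e = S.fin S.root (u ++ t) := h1.2.1
    change _ ≤ S.lev (S.tgt e)
    rw [← h2]
    exact (S.lev_lt e).le

theorem pf_PRP (hPWD : T_PWD) : T_PRP := by
  intro G S
  obtain ⟨W1, W2, W3, W4, W5, W6, W7, W8⟩ := hPWD G S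
  have mpre : ∀ (y : S.Path) u w, u <+: w → S.Mem w y → S.Mem u y := fun y => y.2.pre
  have mlin : ∀ (y : S.Path) u w, S.Mem u y → S.Mem w y → u <+: w ∨ w <+: u := fun y => y.2.lin
  have mleg : ∀ (y : S.Path) w, S.Mem w y → S.Leg S.root w := fun y => y.2.leg
  have key : ∀ (r r' w : List S.E) (y z : S.Path), S.Rep r r' y z →
      (S.Mem w z ↔ w <+: r' ∨ ∃ t, w = r' ++ t ∧ S.Mem (r ++ t) y) := by
    rintro r r' w y z ⟨h1, h2, h3⟩
    constructor
    · intro hw
      rcases mlin z w r' hw h2 with h | ⟨t, rfl⟩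
      · exact Or.inl h
      · exact Or.inr ⟨t, rfl, (h3 t).1 hw⟩
    · rintro (h | ⟨t, rfl, ht⟩)
      · exact mpre z _ _ h h2
      · exact (h3 t).2 ht
  have ksym : ∀ (r r' : List S.E) (y z : S.Path), S.Rep r r' y z → S.Rep r' r z y := by
    rintro r r' y z ⟨h1, h2, h3⟩
    exact ⟨h2, h1, fun t => (h3 t).symm⟩
  have kb : ∀ (r r' : List S.E) (y z : S.Path) (l : ℕ), S.fin S.root r = S.fin S.root r' →
      S.Rep r r' y z → S.Bdd l y → S.Bdd l z := by
    intro r r' y z l hf h hb w hw
    rcases (key r r' w y z h).1 hw with ⟨t, ht⟩ | ⟨t, rfl, ht⟩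
    · have h4 : S.Leg S.root (w ++ t) := by
        rw [ht]
        exact mleg z _ h.2.1
      have h5 := levFin S W6 W7 w t h4
      rw [ht, ← hf] at h5
      exact h5.trans (hb r h.1)
    · have h5 := hb _ ht
      rw [W7] at h5 ⊢
      rw [← hf]
      exact h5
  refine ⟨?_, ?_, ksym, ?_, ?_, ?_, ?_⟩
  · intro r r' y hr hr' hf
    obtain ⟨z, hz⟩ := mkPath S (fun w => w <+: r' ∨ ∃ t, w = r' ++ t ∧ S.Mem (r ++ t) y)
      (Or.inl List.nil_prefix) (by
        rintro u w huw (hw | ⟨t, rfl, ht⟩)
        · exact Or.inl (huw.trans hw)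
        · rcases le_total u.length r'.length with h | h
          · exact Or.inl (List.prefix_of_prefix_length_le huw (List.prefix_append _ _) h)
          · obtain ⟨s, rfl⟩ := List.prefix_of_prefix_length_le (List.prefix_append r' t) huw h
            have hs := (List.prefix_append_right_inj r').1 huw
            exact Or.inr ⟨s, rfl, mpre y _ _ ((List.prefix_append_right_inj r).2 hs) ht⟩) (by
        rintro w (⟨t, ht⟩ | ⟨t, rfl, ht⟩)
        · rw [← ht] at hr'
          exact ((W6 _ _ _).1 hr').1
        · refine (W6 _ _ _).2 ⟨hr', ?_⟩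
          rw [← hf]
          exact ((W6 _ _ _).1 (mleg y _ ht)).2) (by
        rintro u w (hu | ⟨t, rfl, ht⟩) (hw | ⟨s, rfl, hs⟩)
        · rcases le_total u.length w.length with h | h
          · exact Or.inl (List.prefix_of_prefix_length_le hu hw h)
          · exact Or.inr (List.prefix_of_prefix_length_le hw hu h)
        · exact Or.inl (hu.trans (List.prefix_append _ _))
        · exact Or.inr (hw.trans (List.prefix_append _ _))
        · rcases mlin y _ _ ht hs with h | h
          · exact Or.inl ((List.prefix_append_right_inj r').2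
              ((List.prefix_append_right_inj r).1 h))
          · exact Or.inr ((List.prefix_append_right_inj r').2
              ((List.prefix_append_right_inj r).1 h)))
    refine ⟨z, hr, (hz _).2 (Or.inl (List.prefix_refl _)), fun t => ?_⟩
    rw [hz]
    constructor
    · rintro (h | ⟨s, hs, h⟩)
      · have h1 : t = [] := by
          have := h.length_le
          rw [List.length_append] at this
          exact List.length_eq_zero_iff.1 (by omega)
        rw [h1, List.append_nil]
        exact hr
      · rw [List.append_cancel_left hs]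
        exact h
    · intro h
      exact Or.inr ⟨t, rfl, h⟩
  · intro r r' y z z' h h'
    exact pathExt S z z' fun w => (key r r' w y z h).trans (key r r' w y z' h').symm
  · rintro r r' r'' y z x ⟨h1, h2, h3⟩ ⟨_, h5, h6⟩
    exact ⟨h1, h5, fun t => (h6 t).trans (h3 t)⟩
  · rintro r r' t y z ⟨h1, h2, h3⟩ ht
    refine ⟨ht, (h3 t).2 ht, fun s => ?_⟩
    rw [List.append_assoc, List.append_assoc]
    exact h3 _
  · intro r r' y z l hf h
    exact ⟨kb r' r z y l hf.symm (ksym r r' y z h), kb r r' y z l hf h⟩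
  · intro r r' w y z h hl
    rw [key r r' w y z h]
    constructor
    · rintro (h1 | ⟨t, rfl, ht⟩)
      · exact h1
      · have h1 : t = [] := by
          rw [List.length_append] at hl
          exact List.length_eq_zero_iff.1 (by omega)
        rw [h1, List.append_nil]
    · exact Or.inl

end Pool.Agent.H93.CPT
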